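import Pool.Agent.Lib.MP_4617b5_gt.Example

/-!
A parallel mean curvature, proper biharmonic immersion into a sphere whose shape operator `A_H` is
not parallel.

The example is homogeneous, `φ (x, y) = (k D kᵀ, (1/√15) (cos yⱼ, sin yⱼ)_{j < 7})`, where
`k = k(x)` is the rotation with Cayley (quaternion) coordinate `x ∈ ℝ³`, `D` is the traceless
diagonal matrix with entries `(√2/30) (-10, 5 + 3 √5, 5 - 3 √5)`, and `y ∈ ℝ⁷`.  The first factor is
a non-minimal member of the isoparametric family of Cartan (an orbit of `SO(3)`) in a sphere of
radius `√(8/15)`, the second a minimal flat torus in a sphere of radius `√(7/15)`.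
-/

open scoped RealInnerProductSpace ContDiff

noncomputable section

namespace Pool.Agent.Results.MP_4617b5_gt.PMCNonparallel

open Pool.Agent.Lib.MP_4617b5_gt

/-- There is a smooth immersion of `ℝ¹⁰` (with the induced metric) into the unit sphere `S²²` of
`ℝ²³` which has parallel mean curvature vector field, is proper biharmonic, and whose shape
operator in the direction of the mean curvature vector field is not parallel. -/
theorem result : ∃ φ : (Fin 10 → ℝ) → EuclideanSpace ℝ (Fin 23),
    IsImmersionInSphere φ ∧ IsPMC φ ∧ IsProperBiharmonic φ ∧ ¬ HasParallelShape φ :=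
  ⟨Ex.phi, Ex.main⟩

end Pool.Agent.Results.MP_4617b5_gt.PMCNonparallel
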